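import Pool.Agent.helper18.KU.Spec

set_option autoImplicit false

namespace Pool.Agent.KU

open Finset

noncomputable section

theorem QIC_cone (hFNS : FNS_stmt) (V : Type) [DecidableEq V] (S Q : Finset V) (X : V → ℕ) (w : V → V → ℕ)
    (b : V) (hC : Cone S X w) (hf : ∀ T ⊆ S, T.Nonempty → T ≠ S → 1 ≤ f X w T) (hQ : Q ⊆ S) (hQS : Q ≠ S)
    (h1 : f X w Q = 1) (hb : b ∈ Q) : Cone Q (addX X b) w := by
  obtain ⟨_, _, _, _, _, _, _, _, hX⟩ := hFNS V w X hC.sy
  refine ⟨hC.sy, ?_, ?_, ?_, ?_⟩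
  · intro v hv
    have := hC.root v (hQ hv)
    unfold addX
    omega
  · rw [hX, h1, if_pos hb]
    norm_num
  · intro T hT
    rw [hX]
    by_cases hbT : b ∈ T
    · rw [if_pos hbT]
      have h2 : T ≠ S := by
        intro h
        apply hQS
        exact Finset.Subset.antisymm hQ (h ▸ hT)
      have := hf T (hT.trans hQ) ⟨b, hbT⟩ h2
      omega
    · rw [if_neg hbT, sub_zero]
      exact hC.iv T (hT.trans hQ)
  · intro T hT
    exact hC.v T (hT.trans hQ)

theorem QIC (hFNS : FNS_stmt) (hNB : NB_stmt) : QIC_stmt := by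
  intro V _ S Q X w hC hf hQ h1 h2
  obtain ⟨_, _, _, hdis, _, _, _, _, _⟩ := hFNS V w X hC.sy
  have hd : Disjoint Q (S \ Q) := Finset.disjoint_sdiff
  have hu : Q ∪ (S \ Q) = S := Finset.union_sdiff_of_subset hQ
  have he := hdis Q (S \ Q) hd
  rw [hu, hC.tot, h1, h2] at he
  have hs : ∑ u ∈ Q, dg w (S \ Q) u = 2 := by
    have h3 : ((∑ u ∈ Q, dg w (S \ Q) u : ℕ) : ℤ) = 2 := by
      push_cast
      linarith
    exact_mod_cast h3
  have hs2 : ∑ x ∈ Q ×ˢ (S \ Q), w x.1 x.2 = 2 := by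
    rw [Finset.sum_product]
    exact hs
  obtain ⟨x, hx, y, hy, hxy⟩ := (hNB (V × V) (Q ×ˢ (S \ Q)) (fun x => w x.1 x.2)).1 hs2
  obtain ⟨a, p⟩ := x
  obtain ⟨b, q⟩ := y
  rw [Finset.mem_product] at hx hy
  refine ⟨a, hx.1, b, hy.1, p, hx.2, q, hy.2, ?_, ?_, ?_⟩
  · intro u hu z hz
    have h := hxy (u, z) (Finset.mem_product.mpr ⟨hu, hz⟩)
    simp only [Prod.mk.injEq] at h
    exact h
  · have hne : Q ≠ S := by
      intro h
      have hp := Finset.mem_sdiff.mp hx.2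
      rw [h] at hp
      exact hp.2 hp.1
    exact QIC_cone hFNS V S Q X w b hC hf hQ hne h1 hy.1
  · have hne : S \ Q ≠ S := by
      intro h
      have ha : a ∈ S \ Q := by
        rw [h]
        exact hQ hx.1
      exact (Finset.mem_sdiff.mp ha).2 hx.1
    exact QIC_cone hFNS V S (S \ Q) X w p hC hf Finset.sdiff_subset hne h2 hx.2

end

end Pool.Agent.KU
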